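import Mathlib

/-!
# A complete, connected, locally connected, absolutely homogeneous metric space which is not
locally compact

The space is the complete real tree all of whose points have valence three.
-/

namespace Pool.Agent.Results.MP_079cdc_gt.RealTree

open Set Filter Topology

/-- A point of the tree: a level `ρ` and a right locally constant function `f` which vanishes above
the level `ρ` and near `-∞`. -/
@[ext] structure T where
  /-- the level -/
  ρ : ℝ
  /-- the function -/
  f : ℝ → Bool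
  hr : ∀ t, ∃ e > 0, ∀ s, t ≤ s → s < t + e → f s = f t
  top : ∀ t, ρ ≤ t → f t = false
  bot : ∃ N, ∀ t, t < N → f t = false

/-- the levels up to which two points agree -/
def Ag (x y : T) : Set ℝ := {t | t ≤ x.ρ ∧ t ≤ y.ρ ∧ ∀ s < t, x.f s = y.f s}

/-- the level at which two points separate -/
noncomputable def m (x y : T) : ℝ := sSup (Ag x y)

theorem ag_nonempty (x y : T) : (Ag x y).Nonempty := by
  obtain ⟨N, hN⟩ := x.bot
  obtain ⟨M, hM⟩ := y.bot
  refine ⟨min (min N M) (min x.ρ y.ρ), ?_, ?_, fun s hs => ?_⟩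
  · exact (min_le_right _ _).trans (min_le_left _ _)
  · exact (min_le_right _ _).trans (min_le_right _ _)
  · rw [lt_min_iff, lt_min_iff] at hs
    rw [hN s hs.1.1, hM s hs.1.2]

theorem ag_bdd (x y : T) : BddAbove (Ag x y) := ⟨x.ρ, fun _ ht => ht.1⟩

theorem le_m_iff {x y : T} {t : ℝ} :
    t ≤ m x y ↔ t ≤ x.ρ ∧ t ≤ y.ρ ∧ ∀ s < t, x.f s = y.f s := by
  constructor
  · intro h
    refine ⟨h.trans (csSup_le (ag_nonempty x y) fun _ ht => ht.1),
      h.trans (csSup_le (ag_nonempty x y) fun _ ht => ht.2.1), fun s hs => ?_⟩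
    obtain ⟨r, hr, hsr⟩ := exists_lt_of_lt_csSup (ag_nonempty x y) (hs.trans_le h)
    exact hr.2.2 s hsr
  · intro h
    exact le_csSup (ag_bdd x y) h

theorem m_comm (x y : T) : m x y = m y x := by
  apply le_antisymm
  · rw [le_m_iff]
    have := le_m_iff.1 (le_refl (m x y))
    exact ⟨this.2.1, this.1, fun s hs => (this.2.2 s hs).symm⟩
  · rw [le_m_iff]
    have := le_m_iff.1 (le_refl (m y x))
    exact ⟨this.2.1, this.1, fun s hs => (this.2.2 s hs).symm⟩

theorem m_le_left (x y : T) : m x y ≤ x.ρ := (le_m_iff.1 (le_refl (m x y))).1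
theorem m_le_right (x y : T) : m x y ≤ y.ρ := (le_m_iff.1 (le_refl (m x y))).2.1
theorem m_agree {x y : T} {s : ℝ} (hs : s < m x y) : x.f s = y.f s :=
  (le_m_iff.1 (le_refl (m x y))).2.2 s hs

theorem m_self (x : T) : m x x = x.ρ :=
  le_antisymm (m_le_left x x) (le_m_iff.2 ⟨le_refl _, le_refl _, fun _ _ => rfl⟩)

theorem m_ultra (x y z : T) : min (m x y) (m y z) ≤ m x z := by
  rw [le_m_iff]
  refine ⟨(min_le_left _ _).trans (m_le_left _ _), (min_le_right _ _).trans (m_le_right _ _),
    fun s hs => ?_⟩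
  rw [lt_min_iff] at hs
  rw [m_agree hs.1, m_agree hs.2]

theorem eq_of_m {x y : T} (h1 : m x y = x.ρ) (h2 : m x y = y.ρ) : x = y := by
  have hρ : x.ρ = y.ρ := by rw [← h1, ← h2]
  ext1
  · exact hρ
  · funext s
    rcases lt_or_ge s x.ρ with h | h
    · exact m_agree (by rw [h1]; exact h)
    · rw [x.top s h, y.top s (hρ ▸ h)]

noncomputable instance : MetricSpace T where
  dist x y := x.ρ + y.ρ - 2 * m x y
  dist_self x := by rw [m_self]; ring
  dist_comm x y := by rw [m_comm]; ring
  dist_triangle x y z := by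
    have h1 := m_ultra x y z
    have h2 := m_le_right x y
    have h3 := m_le_left y z
    rcases min_le_iff.1 h1 with h | h <;> linarith
  eq_of_dist_eq_zero {x y} h := by
    have h2 := m_le_left x y
    have h3 := m_le_right x y
    exact eq_of_m (by linarith) (by linarith)

theorem dist_def (x y : T) : dist x y = x.ρ + y.ρ - 2 * m x y := rfl

/-- The point which agrees with `x` below the level `t` and then follows the value `b` on an
interval of length `e`. -/
noncomputable def G (x : T) (t : ℝ) (b : Bool) (e : ℝ) : T where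
  ρ := t + e
  f s := if s < t + e then (if s < t then x.f s else b) else false
  hr s := by
    rcases lt_or_ge s (t + e) with h' | h'
    · rcases lt_or_ge s t with h | h
      · obtain ⟨d, hd, hd2⟩ := x.hr s
        refine ⟨min d (min (t - s) (t + e - s)), lt_min hd (lt_min (by linarith) (by linarith)),
          fun r hr1 hr2 => ?_⟩
        have h1 : r < s + d := lt_of_lt_of_le hr2 (by linarith [min_le_left d (min (t - s) (t + e - s))])
        have h2 : min d (min (t - s) (t + e - s)) ≤ t - s :=
          (min_le_right _ _).trans (min_le_left _ _)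
        have h3 : min d (min (t - s) (t + e - s)) ≤ t + e - s :=
          (min_le_right _ _).trans (min_le_right _ _)
        rw [if_pos (by linarith), if_pos (by linarith), if_pos h', if_pos h, hd2 r hr1 h1]
      · refine ⟨t + e - s, by linarith, fun r hr1 hr2 => ?_⟩
        rw [if_pos (by linarith), if_neg (by linarith), if_pos h', if_neg (by linarith)]
    · refine ⟨1, one_pos, fun r hr1 hr2 => ?_⟩
      rw [if_neg (by linarith), if_neg (by linarith)]
  top s hs := by rw [if_neg (by linarith)]
  bot := by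
    obtain ⟨N, hN⟩ := x.bot
    refine ⟨min N t, fun s hs => ?_⟩
    rw [lt_min_iff] at hs
    rw [if_pos hs.2, hN s hs.1]
    split_ifs <;> rfl

/-- truncation of `x` at the level `t` -/
noncomputable def tr (x : T) (t : ℝ) : T := G x t false 0

theorem tr_rho (x : T) (t : ℝ) : (tr x t).ρ = t := by simp [tr, G]

theorem tr_f {x : T} {t s : ℝ} (h : s < t) : (tr x t).f s = x.f s := by
  simp [tr, G, h]

theorem m_tr {x y : T} {t : ℝ} (ht : t ≤ x.ρ) : m (tr x t) y = min t (m x y) := by
  apply le_antisymm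
  · have h1 := m_le_left (tr x t) y
    rw [tr_rho] at h1
    refine le_min h1 (le_m_iff.2 ⟨h1.trans ht, m_le_right _ _, fun s hs => ?_⟩)
    rw [← m_agree hs, tr_f (hs.trans_le h1)]
  · refine le_m_iff.2 ⟨by rw [tr_rho]; exact min_le_left _ _,
      (min_le_right _ _).trans (m_le_right _ _), fun s hs => ?_⟩
    rw [lt_min_iff] at hs
    rw [tr_f hs.1, m_agree hs.2]

theorem tr_congr {x y : T} {t : ℝ} (h : t ≤ m x y) : tr x t = tr y t := by
  ext1
  · rw [tr_rho, tr_rho]
  · funext s
    rcases lt_or_ge s t with hs | hs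
    · rw [tr_f hs, tr_f hs, m_agree (hs.trans_le h)]
    · rw [(tr x t).top s (by rw [tr_rho]; exact hs), (tr y t).top s (by rw [tr_rho]; exact hs)]

/-- geodesics -/
theorem geod_aux {x y : T} {s : ℝ} (h0 : 0 ≤ s) (h1 : s ≤ x.ρ - m x y) :
    ∃ z, dist x z = s ∧ dist z y = dist x y - s := by
  have hm := m_le_left x y
  refine ⟨tr x (x.ρ - s), ?_, ?_⟩
  · rw [dist_def, m_comm, m_tr (by linarith), m_self, tr_rho, min_eq_left (by linarith)]; ring
  · rw [dist_def, m_tr (by linarith), tr_rho, min_eq_right (by linarith), dist_def]; ring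

theorem geod {x y : T} {s : ℝ} (h0 : 0 ≤ s) (h1 : s ≤ dist x y) :
    ∃ z, dist x z = s ∧ dist z y = dist x y - s := by
  rcases le_total s (x.ρ - m x y) with h | h
  · exact geod_aux h0 h
  · obtain ⟨z, hz1, hz2⟩ := geod_aux (x := y) (y := x) (s := dist x y - s) (by linarith) (by
      rw [dist_def, m_comm y x]; linarith)
    refine ⟨z, ?_, ?_⟩
    · rw [dist_comm x z, hz2, dist_comm y x]; ring
    · rw [dist_comm z y, hz1]

theorem four_m (x y z w : T) :
    min (m x z + m y w) (m x w + m y z) ≤ m x y + m z w := by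
  have h1 := min_le_iff.1 (m_ultra x z y)
  have h2 := min_le_iff.1 (m_ultra x w y)
  have h3 := min_le_iff.1 (m_ultra z x w)
  have h4 := min_le_iff.1 (m_ultra z y w)
  rw [m_comm z y] at h1
  rw [m_comm w y] at h2
  rw [m_comm z x] at h3
  rw [m_comm z y] at h4
  rw [min_le_iff]
  rcases le_total (m x y) (m z w) with h | h <;> rcases h1 with h1 | h1 <;>
    rcases h2 with h2 | h2 <;> rcases h3 with h3 | h3 <;> rcases h4 with h4 | h4 <;>
    first
    | (left; linarith)
    | (right; linarith)

/-- the four point condition -/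
theorem four (x b a c : T) :
    dist x b + dist a c ≤ max (dist x a + dist b c) (dist x c + dist a b) := by
  have h := four_m x b a c
  rw [le_max_iff]
  simp only [dist_def]
  rcases min_le_iff.1 h with h | h
  · left; linarith
  · right; rw [m_comm a b]; linarith

/-- distances from a point of a segment -/
theorem seg {a c x : T} (h : dist a x + dist x c = dist a c) (b : T) :
    dist x b = max (dist a b - dist a x) (dist c b - dist x c) := by
  have h1 := four x b a c
  have h2 := dist_triangle a x b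
  have h3 := dist_triangle c x b
  rw [dist_comm c x] at h3
  rw [dist_comm x a] at h1
  rw [dist_comm b c] at h1
  apply le_antisymm
  · rw [le_max_iff]
    rcases le_max_iff.1 h1 with h1 | h1
    · right; linarith
    · left; linarith
  · exact max_le (by linarith) (by linarith)

theorem median (x a c : T) : ∃ z, dist a z + dist z c = dist a c ∧
    dist x a = dist x z + dist z a ∧ dist x c = dist x z + dist z c := by
  have t1 := dist_triangle x a c
  have t2 := dist_triangle a x c
  have t3 := dist_triangle x c a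
  have c1 := dist_comm a x
  have c2 := dist_comm c a
  obtain ⟨z, hz1, hz2⟩ := geod (x := a) (y := c)
    (s := (dist a x + dist a c - dist x c) / 2) (by linarith) (by linarith)
  have hz3 := seg (a := a) (c := c) (x := z) (by linarith) x
  have e : dist a x - dist a z = dist c x - dist z c := by
    rw [hz1, hz2, dist_comm c x]; ring
  rw [← e, max_self] at hz3
  refine ⟨z, by linarith, ?_, ?_⟩
  · rw [dist_comm x z, hz3, dist_comm z a, c1]; ring
  · rw [dist_comm x z, hz3, hz2]; linarith

/-! ### directions -/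

/-- the direction at `p` of the point `u` -/
noncomputable def cl (p u : T) : Fin 3 :=
  if m u p < p.ρ then 0 else if u.f p.ρ = true then 2 else 1

theorem cl_iff {p u v : T} (hu : u ≠ p) (hv : v ≠ p) :
    cl p u = cl p v ↔ dist u v < dist u p + dist p v := by
  have e : dist u v < dist u p + dist p v ↔ m u p + m v p < p.ρ + m u v := by
    simp only [dist_def]
    rw [m_comm p v]
    constructor <;> intro h <;> linarith
  rw [e]
  have h1 := m_ultra u p v
  have h2 := m_ultra u v p
  have h3 := m_ultra v u p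
  rw [m_comm p v] at h1
  rw [m_comm v u] at h3
  have hu1 := m_le_right u p
  have hv1 := m_le_right v p
  unfold cl
  by_cases a : m u p < p.ρ
  · by_cases b : m v p < p.ρ
    · rw [if_pos a, if_pos b]
      simp only [true_iff]
      rcases min_le_iff.1 h1 with h | h <;> linarith
    · rw [if_pos a, if_neg b]
      have hvp : m v p = p.ρ := le_antisymm hv1 (not_lt.1 b)
      have hne : (0 : Fin 3) ≠ (if v.f p.ρ = true then 2 else 1) := by
        split_ifs <;> decide
      simp only [hne, false_iff, not_lt]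
      rcases min_le_iff.1 h2 with h | h <;> linarith
  · have hup : m u p = p.ρ := le_antisymm hu1 (not_lt.1 a)
    by_cases b : m v p < p.ρ
    · rw [if_neg a, if_pos b]
      have hne : (if u.f p.ρ = true then 2 else 1) ≠ (0 : Fin 3) := by
        split_ifs <;> decide
      simp only [hne, false_iff, not_lt]
      rcases min_le_iff.1 h3 with h | h <;> linarith
    · have hvp : m v p = p.ρ := le_antisymm hv1 (not_lt.1 b)
      rw [if_neg a, if_neg b, hup, hvp]
      have hu2 : p.ρ < u.ρ := by
        have := m_le_left u p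
        rcases lt_or_eq_of_le this with h | h
        · rw [← hup]; exact h
        · exact absurd (eq_of_m h hup) hu
      have hv2 : p.ρ < v.ρ := by
        have := m_le_left v p
        rcases lt_or_eq_of_le this with h | h
        · rw [← hvp]; exact h
        · exact absurd (eq_of_m h hvp) hv
      have key : p.ρ + p.ρ < p.ρ + m u v ↔ u.f p.ρ = v.f p.ρ := by
        constructor
        · intro h
          exact m_agree (by linarith)
        · intro h
          obtain ⟨d, hd, hd2⟩ := u.hr p.ρ
          obtain ⟨e, he, he2⟩ := v.hr p.ρ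
          have : min (min (p.ρ + d) (p.ρ + e)) (min u.ρ v.ρ) ≤ m u v := by
            refine le_m_iff.2 ⟨(min_le_right _ _).trans (min_le_left _ _),
              (min_le_right _ _).trans (min_le_right _ _), fun s hs => ?_⟩
            rw [lt_min_iff, lt_min_iff] at hs
            rcases lt_or_ge s p.ρ with h' | h'
            · rw [m_agree (x := u) (y := p) (by rw [hup]; exact h'),
                m_agree (x := v) (y := p) (by rw [hvp]; exact h')]
            · rw [hd2 s h' hs.1.1, he2 s h' hs.1.2, h]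
          have h4 : p.ρ < min (min (p.ρ + d) (p.ρ + e)) (min u.ρ v.ρ) :=
            lt_min (lt_min (by linarith) (by linarith)) (lt_min hu2 hv2)
          linarith
      rw [key]
      cases u.f p.ρ <;> cases v.f p.ρ <;> simp

theorem cl_surj (p : T) (c : Fin 3) : ∃ u, u ≠ p ∧ cl p u = c := by
  have hup : ∀ b : Bool, m (G p p.ρ b 1) p = p.ρ := by
    intro b
    refine le_antisymm (m_le_right _ _) (le_m_iff.2 ⟨by simp [G], le_refl _, fun s hs => ?_⟩)
    simp only [G]
    rw [if_pos (by linarith), if_pos hs]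
  have hne : ∀ b : Bool, G p p.ρ b 1 ≠ p := by
    intro b h
    have : (G p p.ρ b 1).ρ = p.ρ := by rw [h]
    simp [G] at this
  have hf : ∀ b : Bool, (G p p.ρ b 1).f p.ρ = b := by
    intro b
    simp [G]
  fin_cases c
  · refine ⟨tr p (p.ρ - 1), ?_, ?_⟩
    · intro h
      have : (tr p (p.ρ - 1)).ρ = p.ρ := by rw [h]
      rw [tr_rho] at this
      linarith
    · unfold cl
      rw [m_tr (by linarith), m_self, if_pos (by rw [min_eq_left (by linarith)]; linarith)]
      rfl
  · refine ⟨G p p.ρ false 1, hne _, ?_⟩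
    unfold cl
    rw [hup, if_neg (lt_irrefl _), hf]
    rfl
  · refine ⟨G p p.ρ true 1, hne _, ?_⟩
    unfold cl
    rw [hup, if_neg (lt_irrefl _), hf]
    rfl

/-! ### completeness -/

theorem rho_sub_le (x y : T) : |x.ρ - y.ρ| ≤ dist x y := by
  have h1 := m_le_left x y
  have h2 := m_le_right x y
  rw [dist_def, abs_le]
  constructor <;> linarith

theorem complete : CompleteSpace T := by
  refine Metric.complete_of_cauchySeq_tendsto fun x hx => ?_
  have hρc : CauchySeq fun n => (x n).ρ := by
    rw [Metric.cauchySeq_iff] at hx ⊢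
    intro e he
    obtain ⟨N, hN⟩ := hx e he
    refine ⟨N, fun a ha b hb => ?_⟩
    rw [Real.dist_eq]
    exact (rho_sub_le _ _).trans_lt (hN a ha b hb)
  obtain ⟨ρ, hρ⟩ := cauchySeq_tendsto_of_complete hρc
  rw [Metric.tendsto_atTop] at hρ
  have hm : ∀ t < ρ, ∃ N, ∀ n ≥ N, ∀ k ≥ N, t < m (x n) (x k) := by
    intro t ht
    obtain ⟨N, hN⟩ := hρ ((ρ - t) / 4) (by linarith)
    obtain ⟨M, hM⟩ := Metric.cauchySeq_iff.1 hx ((ρ - t) / 4) (by linarith)
    refine ⟨max N M, fun n hn k hk => ?_⟩
    have a1 := hN n ((le_max_left _ _).trans hn)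
    have a2 := hN k ((le_max_left _ _).trans hk)
    have a3 := hM n ((le_max_right _ _).trans hn) k ((le_max_right _ _).trans hk)
    rw [Real.dist_eq, abs_lt] at a1 a2
    rw [dist_def] at a3
    linarith [a1.1, a2.1]
  classical
  let F : ℝ → Bool := fun s => if s < ρ then decide (∃ N, ∀ n ≥ N, (x n).f s = true) else false
  have hE : ∀ t < ρ, ∃ N, ∀ n ≥ N, t < (x n).ρ ∧ ∀ r ≤ t, F r = (x n).f r := by
    intro t ht
    obtain ⟨N, hN⟩ := hm t ht
    refine ⟨N, fun n hn => ⟨(hN n hn n hn).trans_le (m_le_left _ _), fun r hr => ?_⟩⟩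
    have hr2 : r < ρ := lt_of_le_of_lt hr ht
    have hF : F r = decide (∃ N, ∀ n ≥ N, (x n).f r = true) := by
      simp only [F]; rw [if_pos hr2]
    rw [hF]
    cases hb : (x n).f r
    · rw [decide_eq_false_iff_not]
      rintro ⟨M, hM⟩
      have h1 := hM (max N M) (le_max_right _ _)
      have h2 := m_agree (lt_of_le_of_lt hr (hN n hn (max N M) (le_max_left _ _)))
      rw [hb, h1] at h2
      exact Bool.false_ne_true h2
    · rw [decide_eq_true_iff]
      refine ⟨N, fun k hk => ?_⟩
      rw [← m_agree (lt_of_le_of_lt hr (hN n hn k hk)), hb]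
  let y : T :=
    { ρ := ρ
      f := F
      hr := by
        intro s
        rcases lt_or_ge s ρ with h | h
        · obtain ⟨N, hN⟩ := hE ((s + ρ) / 2) (by linarith)
          obtain ⟨d, hd, hd2⟩ := (x N).hr s
          refine ⟨min d ((ρ - s) / 2), lt_min hd (by linarith), fun r hr1 hr2 => ?_⟩
          have b1 : r < s + d := lt_of_lt_of_le hr2 (by linarith [min_le_left d ((ρ - s) / 2)])
          have b2 : r < s + (ρ - s) / 2 :=
            lt_of_lt_of_le hr2 (by linarith [min_le_right d ((ρ - s) / 2)])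
          rw [(hN N (le_refl _)).2 r (by linarith), (hN N (le_refl _)).2 s (by linarith),
            hd2 r hr1 b1]
        · refine ⟨1, one_pos, fun r hr1 hr2 => ?_⟩
          simp only [F]
          rw [if_neg (by linarith), if_neg (by linarith)]
      top := by
        intro s hs
        simp only [F]
        rw [if_neg (by linarith)]
      bot := by
        obtain ⟨N, hN⟩ := hE (ρ - 1) (by linarith)
        obtain ⟨M, hM⟩ := (x N).bot
        refine ⟨min M (ρ - 1), fun s hs => ?_⟩
        rw [lt_min_iff] at hs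
        rw [(hN N (le_refl _)).2 s hs.2.le, hM s hs.1] }
  refine ⟨y, ?_⟩
  rw [Metric.tendsto_atTop]
  intro e he
  obtain ⟨N, hN⟩ := hE (ρ - e / 4) (by linarith)
  obtain ⟨M, hM⟩ := hρ (e / 4) (by linarith)
  refine ⟨max N M, fun n hn => ?_⟩
  have a1 := hN n ((le_max_left _ _).trans hn)
  have a2 := hM n ((le_max_right _ _).trans hn)
  rw [Real.dist_eq, abs_lt] at a2
  have a3 : ρ - e / 4 ≤ m (x n) y := by
    refine le_m_iff.2 ⟨a1.1.le, ?_, fun r hr => ?_⟩
    · show ρ - e / 4 ≤ ρ
      linarith
    · exact (a1.2 r hr.le).symm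
  rw [dist_def]
  have : y.ρ = ρ := rfl
  rw [this]
  linarith [a2.2]

/-! ### homogeneity -/

/-- `M` is a partial isometry to which no pair can be added. -/
structure Sat (M : Set (T × T)) : Prop where
  iso : ∀ p ∈ M, ∀ q ∈ M, dist p.1 q.1 = dist p.2 q.2
  sat : ∀ x y, (∀ p ∈ M, dist x p.1 = dist y p.2) → (x, y) ∈ M

theorem sat_swap {M : Set (T × T)} (h : Sat M) : Sat (Prod.swap ⁻¹' M) := by
  refine ⟨fun p hp q hq => (h.iso _ hp _ hq).symm, fun x y hxy => ?_⟩
  refine h.sat y x fun p hp => ?_
  exact (hxy (p.2, p.1) hp).symm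

theorem exists_sat (N : Set (T × T)) (h : ∀ p ∈ N, ∀ q ∈ N, dist p.1 q.1 = dist p.2 q.2) :
    ∃ M, N ⊆ M ∧ Sat M := by
  let S : Set (Set (T × T)) := {M | ∀ p ∈ M, ∀ q ∈ M, dist p.1 q.1 = dist p.2 q.2}
  obtain ⟨M, hNM, hM⟩ := zorn_subset_nonempty S (fun c hc hch _ => by
    refine ⟨⋃₀ c, ?_, fun s hs => subset_sUnion_of_mem hs⟩
    rintro p ⟨s, hs, hp⟩ q ⟨t, ht, hq⟩
    rcases hch.total hs ht with hst | hst
    · exact hc ht p (hst hp) q hq
    · exact hc hs p hp q (hst hq)) N h
  refine ⟨M, hNM, hM.prop, fun x y hxy => ?_⟩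
  have h1 : insert (x, y) M ∈ S := by
    rintro p hp q hq
    rcases mem_insert_iff.1 hp with rfl | hp
    · rcases mem_insert_iff.1 hq with rfl | hq
      · simp
      · exact hxy q hq
    · rcases mem_insert_iff.1 hq with rfl | hq
      · rw [dist_comm p.1 x, dist_comm p.2 y]
        exact hxy p hp
      · exact hM.prop p hp q hq
  exact hM.le_of_ge h1 (subset_insert _ _) (mem_insert _ _)

/-- the domain -/
def dom (M : Set (T × T)) : Set T := {a | ∃ b, (a, b) ∈ M}

theorem dom_convex {M : Set (T × T)} (h : Sat M) {a c z : T} (ha : a ∈ dom M) (hc : c ∈ dom M)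
    (hz : dist a z + dist z c = dist a c) : z ∈ dom M := by
  obtain ⟨a', ha⟩ := ha
  obtain ⟨c', hc⟩ := hc
  have e1 := h.iso _ ha _ hc
  dsimp only at e1
  have hle : dist a z ≤ dist a c := by linarith [dist_nonneg (x := z) (y := c)]
  obtain ⟨z', hz1, hz2⟩ := geod (x := a') (y := c') (s := dist a z) dist_nonneg (by
    rw [← e1]; exact hle)
  refine ⟨z', h.sat z z' fun p hp => ?_⟩
  rw [seg hz p.1, seg (a := a') (c := c') (x := z') (by linarith) p.2, hz1, hz2]
  have e2 := h.iso _ ha _ hp
  have e3 := h.iso _ hc _ hp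
  dsimp only at e2 e3
  rw [e2, e3, ← e1]
  have : dist z c = dist a c - dist a z := by linarith
  rw [this]

theorem dom_closed {M : Set (T × T)} (h : Sat M) : IsClosed (dom M) := by
  have := complete
  rw [← isSeqClosed_iff_isClosed]
  intro a z ha haz
  choose b hb using ha
  have hcau : CauchySeq b := by
    have h1 := haz.cauchySeq
    rw [Metric.cauchySeq_iff] at h1 ⊢
    intro e he
    obtain ⟨N, hN⟩ := h1 e he
    refine ⟨N, fun i hi j hj => ?_⟩
    have := h.iso _ (hb i) _ (hb j)
    dsimp only at this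
    rw [← this]
    exact hN i hi j hj
  obtain ⟨w, hw⟩ := cauchySeq_tendsto_of_complete hcau
  refine ⟨w, h.sat z w fun p hp => ?_⟩
  have h1 : Tendsto (fun n => dist (a n) p.1) atTop (𝓝 (dist z p.1)) :=
    haz.dist tendsto_const_nhds
  have h2 : Tendsto (fun n => dist (b n) p.2) atTop (𝓝 (dist w p.2)) :=
    hw.dist tendsto_const_nhds
  have h3 : (fun n => dist (a n) p.1) = fun n => dist (b n) p.2 := by
    funext n
    exact h.iso _ (hb n) _ hp
  rw [h3] at h1
  exact tendsto_nhds_unique h1 h2

theorem proj {M : Set (T × T)} (h : Sat M) (hne : (dom M).Nonempty) (x : T) :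
    ∃ p ∈ dom M, ∀ a ∈ dom M, dist x a = dist x p + dist p a := by
  have := complete
  let D := Metric.infDist x (dom M)
  have hD : ∀ a ∈ dom M, D ≤ dist x a := fun a ha => Metric.infDist_le_dist_of_mem ha
  have hex : ∀ n : ℕ, ∃ a ∈ dom M, dist x a < D + 1 / ((n : ℝ) + 1) := by
    intro n
    exact (Metric.infDist_lt_iff hne).1 (by
      have : (0 : ℝ) < 1 / ((n : ℝ) + 1) := by positivity
      show D < _
      linarith)
  choose a ha1 ha2 using hex
  have hcau : CauchySeq a := by
    rw [Metric.cauchySeq_iff]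
    intro e he
    obtain ⟨N, hN⟩ := exists_nat_one_div_lt (half_pos he)
    refine ⟨N, fun i hi j hj => ?_⟩
    obtain ⟨z, hz1, hz2, hz3⟩ := median x (a i) (a j)
    have hz : z ∈ dom M := dom_convex h (ha1 i) (ha1 j) hz1
    have h1 := hD z hz
    have h2 : 1 / ((i : ℝ) + 1) ≤ 1 / ((N : ℝ) + 1) :=
      one_div_le_one_div_of_le (by positivity) (by exact_mod_cast Nat.add_le_add_right hi 1)
    have h3 : 1 / ((j : ℝ) + 1) ≤ 1 / ((N : ℝ) + 1) :=
      one_div_le_one_div_of_le (by positivity) (by exact_mod_cast Nat.add_le_add_right hj 1)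
    have h4 := ha2 i
    have h5 := ha2 j
    rw [← hz1, dist_comm (a i) z]
    linarith
  obtain ⟨p, hp⟩ := cauchySeq_tendsto_of_complete hcau
  have hpA : p ∈ dom M := (dom_closed h).mem_of_tendsto hp (Eventually.of_forall ha1)
  have hpD : dist x p ≤ D := by
    have h1 : Tendsto (fun n => dist x (a n)) atTop (𝓝 (dist x p)) :=
      tendsto_const_nhds.dist hp
    have h2 : Tendsto (fun n : ℕ => D + 1 / ((n : ℝ) + 1)) atTop (𝓝 (D + 0)) :=
      tendsto_const_nhds.add tendsto_one_div_add_atTop_nhds_zero_nat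
    rw [add_zero] at h2
    exact le_of_tendsto_of_tendsto' h1 h2 fun n => (ha2 n).le
  refine ⟨p, hpA, fun c hc => ?_⟩
  obtain ⟨z, hz1, hz2, hz3⟩ := median x p c
  have hz : z ∈ dom M := dom_convex h hpA hc hz1
  have h1 := hD z hz
  have h2 : dist z p = 0 := le_antisymm (by linarith) dist_nonneg
  rw [dist_eq_zero] at h2
  rw [← h2]; exact hz3

theorem dom_univ {M : Set (T × T)} (h : Sat M) (hne : (dom M).Nonempty) (x : T) : x ∈ dom M := by
  by_contra hx
  obtain ⟨p, ⟨q, hpq⟩, hp⟩ := proj h hne x
  have hxp : x ≠ p := fun e => hx (e ▸ ⟨q, hpq⟩)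
  have hc : ∃ u, u ≠ q ∧ ∀ r ∈ M, dist u r.2 = dist u q + dist q r.2 := by
    by_contra hcon
    push Not at hcon
    have hall : ∀ c : Fin 3, ∃ r ∈ M, r.2 ≠ q ∧ cl q r.2 = c := by
      intro c
      obtain ⟨u, hu1, hu2⟩ := cl_surj q c
      obtain ⟨r, hr1, hr2⟩ := hcon u hu1
      have hrq : r.2 ≠ q := by
        intro e
        rw [e] at hr2
        simp at hr2
      refine ⟨r, hr1, hrq, ?_⟩
      rw [← hu2]
      refine ((cl_iff hu1 hrq).2 (lt_of_le_of_ne (dist_triangle _ _ _) hr2)).symm
    choose r hr1 hr2 hr3 using hall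
    have hr4 : ∀ c, (r c).1 ≠ p := by
      intro c e
      have := h.iso _ (hr1 c) _ hpq
      dsimp only at this
      rw [e, dist_self] at this
      exact hr2 c (dist_eq_zero.1 this.symm)
    have hinj : Function.Injective fun c : Fin 3 => cl p (r c).1 := by
      intro c d hcd
      dsimp only at hcd
      rw [cl_iff (hr4 c) (hr4 d)] at hcd
      have i1 := h.iso _ (hr1 c) _ (hr1 d)
      have i2 := h.iso _ (hr1 c) _ hpq
      have i3 := h.iso _ hpq _ (hr1 d)
      dsimp only at i2 i3
      rw [i1, i2, i3, ← cl_iff (hr2 c) (hr2 d), hr3, hr3] at hcd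
      exact hcd
    obtain ⟨c, hcx⟩ := (Finite.injective_iff_surjective.1 hinj) (cl p x)
    dsimp only at hcx
    have := (cl_iff hxp (hr4 c)).1 hcx.symm
    rw [hp _ ⟨_, hr1 c⟩] at this
    exact lt_irrefl _ this
  obtain ⟨u, hu1, hu2⟩ := hc
  have d1 : 0 < dist p x := dist_pos.2 hxp.symm
  have d2 : 0 < dist q u := dist_pos.2 hu1.symm
  obtain ⟨t, ht0, ht1, ht2⟩ : ∃ t, 0 < t ∧ t ≤ dist p x ∧ t ≤ dist q u :=
    ⟨min (dist p x) (dist q u), lt_min d1 d2, min_le_left _ _, min_le_right _ _⟩
  obtain ⟨x', hx1, hx2⟩ := geod ht0.le ht1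
  obtain ⟨u', hu3, hu4⟩ := geod ht0.le ht2
  have hmem : (x', u') ∈ M := by
    refine h.sat x' u' fun r hr => ?_
    have i1 := hp r.1 ⟨r.2, hr⟩
    have i2 := hu2 r hr
    have i3 := h.iso _ hpq _ hr
    dsimp only at i3
    have j1 := dist_triangle x' p r.1
    have j2 := dist_triangle x x' r.1
    have j3 := dist_triangle u' q r.2
    have j4 := dist_triangle u u' r.2
    rw [dist_comm x' p] at j1
    rw [dist_comm x x'] at j2
    rw [dist_comm u' q] at j3
    rw [dist_comm u u'] at j4
    rw [dist_comm x p] at i1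
    rw [dist_comm u q] at i2
    apply le_antisymm
    · linarith
    · linarith
  have := hp x' ⟨u', hmem⟩
  rw [dist_comm x x', hx2, hx1, dist_comm x p] at this
  linarith

theorem homog (A B : Set T) (e : A ≃ᵢ B) : ∃ g : T ≃ᵢ T, ∀ a : A, g a = e a := by
  classical
  rcases A.eq_empty_or_nonempty with hA | ⟨a0, ha0⟩
  · subst hA
    exact ⟨IsometryEquiv.refl T, fun a => absurd a.2 (notMem_empty _)⟩
  · let N : Set (T × T) := range fun a : A => ((a : T), (e a : T))
    obtain ⟨M, hNM, hM⟩ := exists_sat N (by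
      rintro _ ⟨a, rfl⟩ _ ⟨b, rfl⟩
      exact (e.isometry.dist_eq a b).symm)
    have h0 : ((a0 : T), (e ⟨a0, ha0⟩ : T)) ∈ M := hNM ⟨⟨a0, ha0⟩, rfl⟩
    have hd := dom_univ hM ⟨a0, _, h0⟩
    have hd' := dom_univ (sat_swap hM) ⟨_, _, h0⟩
    choose g hg using hd
    choose k hk using hd'
    have hgi : Isometry g := Isometry.of_dist_eq fun x y => (hM.iso _ (hg x) _ (hg y)).symm
    have hgk : ∀ y, g (k y) = y := by
      intro y
      have h1 : (k y, y) ∈ M := hk y
      have := hM.iso _ (hg (k y)) _ h1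
      dsimp only at this
      rw [dist_self] at this
      exact dist_eq_zero.1 this.symm
    refine ⟨IsometryEquiv.mk' g k hgk hgi, fun a => ?_⟩
    show g a = e a
    have h1 : ((a : T), (e a : T)) ∈ M := hNM ⟨a, rfl⟩
    have := hM.iso _ (hg a) _ h1
    dsimp only at this
    rw [dist_self] at this
    exact dist_eq_zero.1 this.symm

/-! ### connectedness -/

/-- the base point -/
def o : T where
  ρ := 0
  f _ := false
  hr _ := ⟨1, one_pos, fun _ _ _ => rfl⟩
  top _ _ := rfl
  bot := ⟨0, fun _ _ => rfl⟩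

instance : Nonempty T := ⟨o⟩

theorem dist_tr {x : T} {s t : ℝ} (hs : s ≤ x.ρ) (ht : t ≤ x.ρ) :
    dist (tr x s) (tr x t) = |s - t| := by
  rw [dist_def, m_tr hs, m_comm x, m_tr ht, m_self, tr_rho, tr_rho, min_eq_left ht]
  rcases le_total s t with h | h
  · rw [min_eq_left h, abs_of_nonpos (by linarith)]; ring
  · rw [min_eq_right h, abs_of_nonneg (by linarith)]; ring

theorem seg_conn (x : T) (t : ℝ) :
    IsPreconnected ((fun s => tr x (min s x.ρ)) '' Icc t x.ρ) := by
  refine isPreconnected_Icc.image _ (Continuous.continuousOn ?_)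
  rw [Metric.continuous_iff]
  intro b e he
  refine ⟨e, he, fun a ha => ?_⟩
  rw [dist_tr (min_le_right _ _) (min_le_right _ _)]
  rw [Real.dist_eq] at ha
  refine lt_of_le_of_lt ?_ ha
  have := abs_min_sub_min_le_max a x.ρ b x.ρ
  simpa using this

theorem conn (c x : T) : ∃ S : Set T, IsPreconnected S ∧ c ∈ S ∧ x ∈ S ∧
    ∀ z ∈ S, dist c z ≤ dist c x := by
  have hc := m_le_left c x
  have hx := m_le_right c x
  have tc : tr c (m c x) = tr x (m c x) := tr_congr le_rfl
  have hcc : ∀ y : T, tr y y.ρ = y := by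
    intro y
    refine eq_of_m ?_ ?_
    · rw [m_tr le_rfl, m_self, min_self, tr_rho]
    · rw [m_tr le_rfl, m_self, min_self]
  refine ⟨(fun s => tr c (min s c.ρ)) '' Icc (m c x) c.ρ ∪
    (fun s => tr x (min s x.ρ)) '' Icc (m c x) x.ρ, ?_, ?_, ?_, ?_⟩
  · refine IsPreconnected.union (tr c (m c x)) ?_ ?_ (seg_conn c _) (seg_conn x _)
    · exact ⟨m c x, ⟨le_rfl, hc⟩, by simp only; rw [min_eq_left hc]⟩
    · exact ⟨m c x, ⟨le_rfl, hx⟩, by simp only; rw [min_eq_left hx, tc]⟩
  · exact Or.inl ⟨c.ρ, ⟨hc, le_rfl⟩, by simp only; rw [min_self, hcc]⟩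
  · exact Or.inr ⟨x.ρ, ⟨hx, le_rfl⟩, by simp only; rw [min_self, hcc]⟩
  · rintro z (⟨s, ⟨hs1, hs2⟩, rfl⟩ | ⟨s, ⟨hs1, hs2⟩, rfl⟩)
    · simp only
      rw [min_eq_left hs2, dist_def c (tr c s), m_comm, m_tr hs2, m_self, tr_rho,
        min_eq_left hs2, dist_def]
      linarith
    · simp only
      rw [min_eq_left hs2, dist_def c (tr x s), m_comm, m_tr hs2, m_comm x c, tr_rho,
        min_eq_right hs1, dist_def]
      linarith

theorem connected : ConnectedSpace T := by
  have : PreconnectedSpace T := by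
    refine ⟨isPreconnected_of_forall_pair fun x _ y _ => ?_⟩
    obtain ⟨S, h1, h2, h3, -⟩ := conn x y
    exact ⟨S, subset_univ _, h2, h3, h1⟩
  exact ⟨inferInstance⟩

theorem locally_connected : LocallyConnectedSpace T := by
  refine locallyConnectedSpace_of_connected_bases (fun x r => Metric.ball x r) (fun _ r => 0 < r)
    (fun x => Metric.nhds_basis_ball) fun x r hr => ?_
  refine isPreconnected_of_forall x fun y hy => ?_
  obtain ⟨S, h1, h2, h3, h4⟩ := conn x y
  refine ⟨S, fun z hz => ?_, h2, h3, h1⟩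
  rw [Metric.mem_ball, dist_comm] at hy ⊢
  exact (h4 z hz).trans_lt hy

/-! ### not locally compact -/

theorem not_loc_compact : ¬ LocallyCompactSpace T := by
  intro hL
  obtain ⟨K, hK, hKn⟩ := exists_compact_mem_nhds o
  obtain ⟨r, hr, hrK⟩ := Metric.mem_nhds_iff.1 hKn
  let t : ℕ → ℝ := fun n => -(r / 4) / ((n : ℝ) + 1)
  have ht0 : ∀ n, t n < 0 := fun n => div_neg_of_neg_of_pos (by linarith) (by positivity)
  have ht1 : ∀ n, -(r / 4) ≤ t n := by
    intro n
    show -(r / 4) ≤ -(r / 4) / ((n : ℝ) + 1)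
    rw [neg_div, neg_le_neg_iff]
    exact div_le_self (by linarith) (by linarith [Nat.cast_nonneg (α := ℝ) n])
  have htm : ∀ i j : ℕ, i < j → t i < t j := by
    intro i j hij
    show -(r / 4) / ((i : ℝ) + 1) < -(r / 4) / ((j : ℝ) + 1)
    rw [neg_div, neg_div, neg_lt_neg_iff]
    have : (i : ℝ) < j := by exact_mod_cast hij
    exact div_lt_div_of_pos_left (by linarith) (by positivity) (by linarith)
  let w : ℕ → T := fun n => G o (t n) true (r / 8)
  have hwf : ∀ n s, t n ≤ s → s < t n + r / 8 → (w n).f s = true := by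
    intro n s h1 h2
    simp only [w, G]
    rw [if_pos h2, if_neg (by linarith)]
  have hwf2 : ∀ n s, s < t n → (w n).f s = false := by
    intro n s h1
    simp only [w, G]
    rw [if_pos (by linarith), if_pos h1]
    rfl
  have hwo : ∀ n, m (w n) o = t n := by
    intro n
    apply le_antisymm
    · by_contra hc
      push Not at hc
      have h1 := m_agree hc
      rw [hwf n (t n) le_rfl (by linarith)] at h1
      exact Bool.false_ne_true h1.symm
    · refine le_m_iff.2 ⟨by simp only [w, G]; linarith, (ht0 n).le, fun s hs => ?_⟩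
      rw [hwf2 n s hs]; rfl
  have hww : ∀ i j, i < j → m (w i) (w j) ≤ t i := by
    intro i j hij
    by_contra hc
    push Not at hc
    have h1 := m_agree hc
    rw [hwf i (t i) le_rfl (by linarith), hwf2 j (t i) (htm i j hij)] at h1
    exact Bool.false_ne_true h1.symm
  have hsep : ∀ i j, i < j → r / 4 ≤ dist (w i) (w j) := by
    intro i j hij
    have h1 := hww i j hij
    have h2 := htm i j hij
    have h3 : (w i).ρ = t i + r / 8 := rfl
    have h4 : (w j).ρ = t j + r / 8 := rfl
    rw [dist_def, h3, h4]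
    linarith
  have hmem : ∀ n, w n ∈ K := by
    intro n
    apply hrK
    rw [Metric.mem_ball, dist_def, hwo]
    have h3 : (w n).ρ = t n + r / 8 := rfl
    have h4 : o.ρ = 0 := rfl
    rw [h3, h4]
    linarith [ht1 n]
  obtain ⟨a, -, φ, hφ, hlim⟩ := hK.tendsto_subseq hmem
  have hc := hlim.cauchySeq
  rw [Metric.cauchySeq_iff] at hc
  obtain ⟨N, hN⟩ := hc (r / 4) (by linarith)
  have h1 := hN N le_rfl (N + 1) (Nat.le_succ N)
  have h2 := hsep (φ N) (φ (N + 1)) (hφ (Nat.lt_succ_self N))
  simp only [Function.comp] at h1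
  linarith

/-- There is a complete, connected, locally connected metric space which is absolutely homogeneous
(every isometry between two subsets extends to an isometry of the space) and not locally compact. -/
theorem result : ∃ (X : Type) (_ : MetricSpace X), CompleteSpace X ∧ ConnectedSpace X ∧
    LocallyConnectedSpace X ∧
    (∀ (A B : Set X) (f : A ≃ᵢ B), ∃ g : X ≃ᵢ X, ∀ a : A, g a = f a) ∧
    ¬ LocallyCompactSpace X :=
  ⟨T, inferInstance, complete, connected, locally_connected, homog, not_loc_compact⟩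

end Pool.Agent.Results.MP_079cdc_gt.RealTree
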